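import Pool.Agent.J4H81.GB.Stm

/-! # GB-RCG: the choice of the class (helper49, for project GB of helper81) -/

set_option autoImplicit false

namespace Pool.Agent.J4H49.GB

open Pool.Agent.J4H32.MV Pool.Agent.J4H81.GB

open Finset

/-- a class outside of few classes modulo a large prime -/
theorem exists_class {p K : ℕ} (hp : p.Prime) (hK : K < p) (a : Fin K → ℕ) : ∃ r : ℕ, ∀ j, ¬ p ∣ r + a j := by
  classical
  have : NeZero p := ⟨hp.ne_zero⟩
  have h1 : ((univ : Finset (Fin K)).image fun j => -(a j : ZMod p)).card < (univ : Finset (ZMod p)).card := by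
    refine lt_of_le_of_lt card_image_le ?_
    rw [card_univ, card_univ, Fintype.card_fin, ZMod.card]
    exact hK
  obtain ⟨x, -, hx⟩ := exists_mem_notMem_of_card_lt_card h1
  refine ⟨x.val, fun j hj => hx ?_⟩
  rw [mem_image]
  refine ⟨j, mem_univ _, ?_⟩
  rw [← ZMod.natCast_eq_zero_iff, Nat.cast_add, ZMod.natCast_zmod_val] at hj
  linear_combination -hj

theorem adm {k w : ℕ} (hkw : k + 1 ≤ w) (hw : 2 ≤ w) {N : Fin k → ℕ} (hN : AdG N) (p : ℕ) (hp : p.Prime) :
    ∃ r : ℕ, ∀ j : Fin (k + 1), ¬ p ∣ r + (Fin.cons 0 (fun i => (primorial w - 1) * N i) : Fin (k + 1) → ℕ) j := by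
  by_cases hpw : p ≤ w
  · obtain ⟨r, h1, h2⟩ := hN p hp
    have hdvd : p ∣ primorial w := hp.dvd_primorial_iff.2 hpw
    refine ⟨r, fun j => ?_⟩
    refine Fin.cases ?_ (fun i => ?_) j
    · rw [Fin.cons_zero, add_zero]
      exact h1
    · rw [Fin.cons_succ]
      intro h3
      apply h2 i
      have h4 : ((r + (primorial w - 1) * N i : ℕ) : ℤ) = r + (primorial w - 1 : ℤ) * N i := by
        have := primorial_pos w
        push_cast [Nat.cast_sub (show 1 ≤ primorial w from this)]
        ring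
      have h5 : (p : ℤ) ∣ r + (primorial w - 1 : ℤ) * N i := by
        rw [← h4]
        exact_mod_cast h3
      have h6 : (p : ℤ) ∣ (primorial w : ℤ) * N i := Dvd.dvd.mul_right (by exact_mod_cast hdvd) _
      have h7 : (N i : ℤ) - r = (primorial w : ℤ) * N i - (r + (primorial w - 1 : ℤ) * N i) := by ring
      rw [h7]
      exact dvd_sub h6 h5
  · push Not at hpw
    exact exists_class hp (by omega) _

theorem t_RCG : S_RCG := by
  classical
  intro hRC k w B hkw hw hB ρ
  by_cases hex : ∃ N : Fin k → ℕ, AdG N ∧ (fun i => N i % primorial w) = ρ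
  · obtain ⟨N₁, hAd, hρ⟩ := hex
    have hWpos := primorial_pos w
    have hcard : ((B ∪ B.image fun x => -x).card : ℝ) ≤ 2 * B.card := by
      have h1 : (B ∪ B.image fun x => -x).card ≤ B.card + B.card :=
        (card_union_le _ _).trans (Nat.add_le_add_left card_image_le _)
      have h2 : ((B ∪ B.image fun x => -x).card : ℝ) ≤ ((B.card + B.card : ℕ) : ℝ) := by exact_mod_cast h1
      push_cast at h2
      linarith
    have hB' : ((k + 1 : ℕ) : ℝ) * ((B ∪ B.image fun x => -x).card : ℝ) *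
        ((2 * ((k + 1 : ℕ) : ℝ)) ^ (2 * (k + 1)) * (w : ℝ) ^ (2 * (k + 1))) < primorial w := by
      refine lt_of_le_of_lt ?_ hB
      have h3 : ((k + 1 : ℕ) : ℝ) * ((B ∪ B.image fun x => -x).card : ℝ) ≤ 2 * ((k + 1 : ℕ) : ℝ) * B.card := by
        calc ((k + 1 : ℕ) : ℝ) * ((B ∪ B.image fun x => -x).card : ℝ) ≤ ((k + 1 : ℕ) : ℝ) * (2 * B.card) := by gcongr
          _ = _ := by ring
      exact mul_le_mul_of_nonneg_right h3 (by positivity)
    obtain ⟨b, hb, hbj⟩ := hRC (k + 1) w (Fin.cons 0 fun i => (primorial w - 1) * N₁ i) (by omega) (by omega)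
      (adm hkw hw hAd) (B ∪ B.image fun x => -x) hB'
    refine ⟨b, hb, ?_⟩
    intro N _ hN
    refine ⟨?_, ?_⟩
    · obtain ⟨h1, h2⟩ := hbj 0
      rw [Fin.cons_zero, add_zero] at h1 h2
      exact ⟨h1, fun h => h2 (mem_union_left _ h)⟩
    · intro i
      obtain ⟨h1, h2⟩ := hbj i.succ
      rw [Fin.cons_succ] at h1 h2
      have h3 : (N i : ZMod (primorial w)) = (N₁ i : ZMod (primorial w)) := by
        rw [ZMod.natCast_eq_natCast_iff]
        have := congrFun (hN.trans hρ.symm) i
        exact this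
      have h4 : ((b + (primorial w - 1) * N₁ i : ℕ) : ZMod (primorial w)) = b - N₁ i := by
        rw [Nat.cast_add, Nat.cast_mul, Nat.cast_sub (show 1 ≤ primorial w from hWpos), ZMod.natCast_self]
        push_cast
        ring
      have h5 : (N i : ZMod (primorial w)) - (b : ZMod (primorial w)) =
          -((b + (primorial w - 1) * N₁ i : ℕ) : ZMod (primorial w)) := by
        rw [h4, h3]
        ring
      rw [h5]
      refine ⟨((ZMod.isUnit_iff_coprime _ _).2 h1).neg, fun h => h2 ?_⟩
      apply mem_union_right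
      rw [mem_image]
      exact ⟨_, h, neg_neg _⟩
  · refine ⟨0, primorial_pos w, ?_⟩
    intro N hAd hN
    exact absurd ⟨N, hAd, hN⟩ hex

end Pool.Agent.J4H49.GB
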